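import Mathlib

/-! Package NRM of project PF: the proper normal subgroups of `SL₂(ℤ/l^a)` die in `PSL₂(F_l)`. -/

set_option autoImplicit false

namespace Pool.Agent.P8H53.PF

open Matrix
open scoped commutatorElement

section gen

variable {R : Type} [CommRing R]

/-- upper unipotent matrices -/
def up (x : R) : SpecialLinearGroup (Fin 2) R := ⟨!![1, x; 0, 1], by simp [det_fin_two]⟩

/-- lower unipotent matrices -/
def lo (x : R) : SpecialLinearGroup (Fin 2) R := ⟨!![1, 0; x, 1], by simp [det_fin_two]⟩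

/-- diagonal matrices -/
def dg (s t : R) (h : s * t = 1) : SpecialLinearGroup (Fin 2) R :=
  ⟨!![s, 0; 0, t], by simp [det_fin_two, h]⟩

theorem sl_ext {A B : SpecialLinearGroup (Fin 2) R} (h : (A : Matrix (Fin 2) (Fin 2) R) = B) :
    A = B := Subtype.ext h

theorem unit_case (M : SpecialLinearGroup (Fin 2) R) (v : R) (hv : M.1 1 0 * v = 1) :
    M = up ((M.1 0 0 - 1) * v) * lo (M.1 1 0) * up ((M.1 1 1 - 1) * v) := by
  have hd : M.1 0 0 * M.1 1 1 - M.1 0 1 * M.1 1 0 = 1 := by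
    rw [← det_fin_two]
    exact M.2
  refine sl_ext ?_
  show M.1 = (up _).1 * (lo _).1 * (up _).1
  ext i j
  fin_cases i <;> fin_cases j
  · simp [up, lo, Matrix.mul_apply, Fin.sum_univ_two]
    linear_combination (-(M.1 0 0 - 1)) * hv
  · simp [up, lo, Matrix.mul_apply, Fin.sum_univ_two]
    linear_combination (-(M.1 0 0 - 1) * (M.1 1 1 - 1) * v - M.1 0 1) * hv - v * hd
  · simp [up, lo, Matrix.mul_apply, Fin.sum_univ_two]
  · simp [up, lo, Matrix.mul_apply, Fin.sum_univ_two]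
    linear_combination (-(M.1 1 1 - 1)) * hv

theorem gen {F : Type} [Field F] (φ : R →+* F) (hφ : ∀ x, φ x ≠ 0 → IsUnit x)
    (S : Subgroup (SpecialLinearGroup (Fin 2) R)) (hu : ∀ x, up x ∈ S) (hl : ∀ x, lo x ∈ S) :
    S = ⊤ := by
  have key : ∀ M : SpecialLinearGroup (Fin 2) R, φ (M.1 1 0) ≠ 0 → M ∈ S := by
    intro M hM
    obtain ⟨v, hv⟩ := (hφ _ hM).exists_right_inv
    rw [unit_case M v hv]
    exact S.mul_mem (S.mul_mem (hu _) (hl _)) (hu _)
  rw [eq_top_iff]
  intro M _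
  by_cases hM : φ (M.1 1 0) = 0
  · have hd : M.1 0 0 * M.1 1 1 - M.1 0 1 * M.1 1 0 = 1 := by
      rw [← det_fin_two]
      exact M.2
    have he : φ (M.1 1 1) ≠ 0 := by
      intro h
      have h1 := congrArg φ hd
      rw [map_sub, map_mul, map_mul, hM, h] at h1
      simp at h1
    have h2 : M * lo 1 ∈ S := by
      refine key _ ?_
      have h3 : (M * lo 1).1 1 0 = M.1 1 0 + M.1 1 1 := by
        show ((M.1 * (lo (1:R)).1 : Matrix (Fin 2) (Fin 2) R)) 1 0 = _
        simp [lo, Matrix.mul_apply, Fin.sum_univ_two]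
      rw [h3, map_add, hM, zero_add]
      exact he
    have h4 := S.mul_mem h2 (S.inv_mem (hl 1))
    rwa [mul_inv_cancel_right] at h4
  · exact key M hM

theorem comm_up (s t : R) (h : s * t = 1) (y : R) :
    ⁅dg s t h, up y⁆ = up ((s ^ 2 - 1) * y) := by
  rw [commutatorElement_def, mul_inv_eq_iff_eq_mul, mul_inv_eq_iff_eq_mul]
  refine sl_ext ?_
  show (dg s t h).1 * (up y).1 = (up _).1 * (up y).1 * (dg s t h).1
  ext i j
  fin_cases i <;> fin_cases j <;> simp [up, dg, Matrix.mul_apply, Fin.sum_univ_two]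
  linear_combination (-(s * y)) * h

theorem comm_lo (s t : R) (h : s * t = 1) (y : R) :
    ⁅dg t s (by rw [mul_comm]; exact h), lo y⁆ = lo ((s ^ 2 - 1) * y) := by
  rw [commutatorElement_def, mul_inv_eq_iff_eq_mul, mul_inv_eq_iff_eq_mul]
  refine sl_ext ?_
  show (dg t s _).1 * (lo y).1 = (lo _).1 * (lo y).1 * (dg t s _).1
  ext i j
  fin_cases i <;> fin_cases j <;> simp [lo, dg, Matrix.mul_apply, Fin.sum_univ_two]
  linear_combination (-(s * y)) * h

theorem perfect {F : Type} [Field F] (φ : R →+* F) (hφ : ∀ x, φ x ≠ 0 → IsUnit x)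
    (h2 : φ 2 ≠ 0) (h3 : φ 3 ≠ 0) : Group.IsPerfect (SpecialLinearGroup (Fin 2) R) := by
  obtain ⟨t, ht⟩ := (hφ _ h2).exists_right_inv
  obtain ⟨w, hw⟩ := (hφ _ h3).exists_right_inv
  refine ⟨gen φ hφ _ (fun x => ?_) (fun x => ?_)⟩
  · have h4 := comm_up 2 t ht (w * x)
    have h5 : ((2:R) ^ 2 - 1) * (w * x) = x := by linear_combination x * hw
    rw [h5] at h4
    rw [← h4]
    exact Subgroup.commutator_mem_commutator (Subgroup.mem_top _) (Subgroup.mem_top _)
  · have h4 := comm_lo 2 t ht (w * x)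
    have h5 : ((2:R) ^ 2 - 1) * (w * x) = x := by linear_combination x * hw
    rw [h5] at h4
    rw [← h4]
    exact Subgroup.commutator_mem_commutator (Subgroup.mem_top _) (Subgroup.mem_top _)

theorem map_up {R' : Type} [CommRing R'] (φ : R →+* R') (x : R) :
    SpecialLinearGroup.map φ (up x) = up (φ x) := by
  refine sl_ext ?_
  show (up x).1.map φ = (up (φ x)).1
  ext i j
  fin_cases i <;> fin_cases j <;> simp [up]

theorem map_lo {R' : Type} [CommRing R'] (φ : R →+* R') (x : R) :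
    SpecialLinearGroup.map φ (lo x) = lo (φ x) := by
  refine sl_ext ?_
  show (lo x).1.map φ = (lo (φ x)).1
  ext i j
  fin_cases i <;> fin_cases j <;> simp [lo]

theorem map_surj {F : Type} [Field F] (φ : R →+* F) (hs : Function.Surjective φ) :
    Function.Surjective (SpecialLinearGroup.map (n := Fin 2) φ) := by
  rw [← MonoidHom.range_eq_top]
  refine gen (RingHom.id F) (fun x hx => isUnit_iff_ne_zero.2 hx) _ (fun x => ?_) (fun x => ?_)
  · obtain ⟨y, rfl⟩ := hs x
    exact ⟨up y, map_up φ y⟩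
  · obtain ⟨y, rfl⟩ := hs x
    exact ⟨lo y, map_lo φ y⟩

theorem pow_one_add (c : R) (Z : Matrix (Fin 2) (Fin 2) R) (n : ℕ) :
    ∃ Y : Matrix (Fin 2) (Fin 2) R, (1 + c • Z) ^ n = 1 + (n * c) • Z + (c ^ 2) • Y := by
  induction n with
  | zero => exact ⟨0, by simp⟩
  | succ n ih =>
    obtain ⟨Y, hY⟩ := ih
    refine ⟨(n : R) • (Z * Z) + Y + c • (Y * Z), ?_⟩
    rw [pow_succ, hY]
    simp only [mul_add, add_mul, one_mul, mul_one, Matrix.smul_mul, Matrix.mul_smul, smul_add,
      smul_smul]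
    push_cast
    simp only [add_mul, add_smul, one_mul]
    have e1 : c * (n * c) = c ^ 2 * n := by ring
    have e2 : c * c ^ 2 = c ^ 2 * c := by ring
    rw [e1, e2]
    abel

end gen

theorem nrm_core : ∀ (l a : ℕ), l.Prime → 5 ≤ l → 1 ≤ a →
  ∃ π : Matrix.SpecialLinearGroup (Fin 2) (ZMod (l ^ a)) →*
      Matrix.ProjectiveSpecialLinearGroup (Fin 2) (ZMod l),
    Function.Surjective π ∧
    ∀ N : Subgroup (Matrix.SpecialLinearGroup (Fin 2) (ZMod (l ^ a))), N.Normal → N ≠ ⊤ → N ≤ π.ker := by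
  intro l a hl h5 ha
  have : Fact l.Prime := ⟨hl⟩
  have : NeZero (l ^ a) := ⟨pow_ne_zero _ hl.ne_zero⟩
  have hdvd : l ∣ l ^ a := dvd_pow_self l (by omega)
  set φ : ZMod (l ^ a) →+* ZMod l := ZMod.castHom hdvd (ZMod l) with hφd
  have hφs : Function.Surjective φ := ZMod.castHom_surjective hdvd
  have hval : ∀ x : ZMod (l ^ a), φ x = (x.val : ZMod l) := by
    intro x
    conv_lhs => rw [← ZMod.natCast_zmod_val x]
    rw [map_natCast]
  have hφu : ∀ x, φ x ≠ 0 → IsUnit x := by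
    intro x hx
    rw [hval, Ne, ZMod.natCast_eq_zero_iff] at hx
    rw [← ZMod.natCast_zmod_val x, ZMod.isUnit_iff_coprime]
    exact Nat.Coprime.pow_right _ ((hl.coprime_iff_not_dvd.2 hx).symm)
  have hφ0 : ∀ x, φ x = 0 → ∃ y, x = (l : ZMod (l ^ a)) * y := by
    intro x hx
    rw [hval, ZMod.natCast_eq_zero_iff] at hx
    obtain ⟨k, hk⟩ := hx
    refine ⟨(k : ZMod (l ^ a)), ?_⟩
    rw [← ZMod.natCast_zmod_val x, hk]
    push_cast
    rfl
  have hφ2 : φ 2 ≠ 0 := by
    have h1 : φ 2 = ((2 : ℕ) : ZMod l) := by rw [map_ofNat]; rfl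
    rw [h1, Ne, ZMod.natCast_eq_zero_iff]
    intro h
    have := Nat.le_of_dvd (by norm_num) h
    omega
  have hφ3 : φ 3 ≠ 0 := by
    have h1 : φ 3 = ((3 : ℕ) : ZMod l) := by rw [map_ofNat]; rfl
    rw [h1, Ne, ZMod.natCast_eq_zero_iff]
    intro h
    have := Nat.le_of_dvd (by norm_num) h
    omega
  have hperf := perfect φ hφu hφ2 hφ3
  set red := SpecialLinearGroup.map (n := Fin 2) φ with hred
  have hreds : Function.Surjective red := map_surj φ hφs
  set π : Matrix.SpecialLinearGroup (Fin 2) (ZMod (l ^ a)) →*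
      Matrix.ProjectiveSpecialLinearGroup (Fin 2) (ZMod l) :=
    (QuotientGroup.mk' (Subgroup.center (SpecialLinearGroup (Fin 2) (ZMod l)))).comp red with hπ
  have hπs : Function.Surjective π := (QuotientGroup.mk'_surjective _).comp hreds
  refine ⟨π, hπs, fun N hN hNt => ?_⟩
  have hsimple : IsSimpleGroup (Matrix.ProjectiveSpecialLinearGroup (Fin 2) (ZMod l)) := by
    refine Matrix.ProjectiveSpecialLinearGroup.rank_two_simple ?_
    rw [Nat.card_zmod]
    omega
  have hmapN : (N.map π).Normal := Subgroup.Normal.map hN π hπs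
  rcases hmapN.eq_bot_or_eq_top with hb | ht
  · rwa [Subgroup.map_eq_bot_iff] at hb
  exfalso
  refine hNt ?_
  -- the kernel is solvable
  have hpg : IsPGroup l red.ker := by
    rintro ⟨M, hM⟩
    have hM1 : red M = 1 := hM
    have hent : ∀ i j, ∃ y, M.1 i j - (1 : Matrix (Fin 2) (Fin 2) (ZMod (l ^ a))) i j =
        (l : ZMod (l ^ a)) * y := by
      intro i j
      refine hφ0 _ ?_
      have h1 : (red M).1 i j = (1 : SpecialLinearGroup (Fin 2) (ZMod l)).1 i j := by rw [hM1]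
      have h2 : (red M).1 i j = φ (M.1 i j) := rfl
      rw [map_sub, ← h2, h1]
      show (1 : Matrix (Fin 2) (Fin 2) (ZMod l)) i j - _ = 0
      rw [Matrix.one_apply, Matrix.one_apply]
      split_ifs <;> simp
    choose Z hZ using hent
    have hk : ∀ k : ℕ, ∃ Y : Matrix (Fin 2) (Fin 2) (ZMod (l ^ a)),
        M.1 ^ (l ^ k) = 1 + ((l : ZMod (l ^ a)) ^ (k + 1)) • Y := by
      intro k
      induction k with
      | zero =>
        refine ⟨Matrix.of Z, ?_⟩
        ext i j
        rw [pow_zero, pow_one, zero_add, pow_one, Matrix.add_apply, Matrix.smul_apply,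
          Matrix.of_apply, smul_eq_mul, ← hZ]
        ring
      | succ k ih =>
        obtain ⟨Y, hY⟩ := ih
        obtain ⟨W, hW⟩ := pow_one_add ((l : ZMod (l ^ a)) ^ (k + 1)) Y l
        refine ⟨Y + ((l : ZMod (l ^ a)) ^ k) • W, ?_⟩
        rw [pow_succ, pow_mul, hY, hW, smul_add, smul_smul, add_assoc]
        congr 3
        · ring
        · ring
    obtain ⟨Y, hY⟩ := hk (a - 1)
    refine ⟨a - 1, Subtype.ext (sl_ext ?_)⟩
    have h1 : ((l : ZMod (l ^ a)) ^ (a - 1 + 1)) = 0 := by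
      rw [Nat.sub_add_cancel ha]
      have h2 : ((l ^ a : ℕ) : ZMod (l ^ a)) = 0 := ZMod.natCast_self _
      rw [← h2]
      push_cast
      rfl
    rw [h1, zero_smul, add_zero] at hY
    exact (Matrix.SpecialLinearGroup.coe_pow M (l ^ (a - 1))).trans hY
  have hnil : Group.IsNilpotent red.ker := hpg.isNilpotent
  have hsol1 : Group.IsSolvable red.ker := inferInstance
  have hle : red.ker ≤ π.ker := by
    intro x hx
    rw [MonoidHom.mem_ker] at hx ⊢
    rw [hπ, MonoidHom.comp_apply, hx, map_one]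
  have hsol2 : Group.IsSolvable π.ker := by
    let g : π.ker →* Subgroup.center (SpecialLinearGroup (Fin 2) (ZMod l)) :=
      (red.comp π.ker.subtype).codRestrict _ (by
        rintro ⟨x, hx⟩
        rw [MonoidHom.mem_ker, hπ, MonoidHom.comp_apply] at hx
        exact (QuotientGroup.eq_one_iff _).1 hx)
    have hcen : Group.IsSolvable (Subgroup.center (SpecialLinearGroup (Fin 2) (ZMod l))) :=
      Group.isSolvable_of_comm fun x y => Subtype.ext ((Subgroup.mem_center_iff.1 y.2 x.1))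
    refine Group.isSolvable_of_ker_le_range (Subgroup.inclusion hle) g ?_
    rintro ⟨x, hx⟩ hgx
    have h1 : red x = 1 := by
      have h2 := congrArg Subtype.val (MonoidHom.mem_ker.1 hgx)
      exact h2
    exact ⟨⟨x, h1⟩, rfl⟩
  let q : π.ker →* (SpecialLinearGroup (Fin 2) (ZMod (l ^ a)) ⧸ N) :=
    (QuotientGroup.mk' N).comp π.ker.subtype
  have hq : Function.Surjective q := by
    intro y
    obtain ⟨g, rfl⟩ := QuotientGroup.mk'_surjective N y
    have h1 : π g ∈ N.map π := by rw [ht]; exact Subgroup.mem_top _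
    obtain ⟨n, hn, hng⟩ := h1
    refine ⟨⟨g * n⁻¹, ?_⟩, ?_⟩
    · rw [MonoidHom.mem_ker, map_mul, map_inv, hng, mul_inv_cancel]
    · show QuotientGroup.mk' N (g * n⁻¹) = QuotientGroup.mk' N g
      rw [map_mul]
      have h2 : QuotientGroup.mk' N n⁻¹ = 1 := (QuotientGroup.eq_one_iff _).2 (N.inv_mem hn)
      rw [h2, mul_one]
  have hsol3 : Group.IsSolvable (SpecialLinearGroup (Fin 2) (ZMod (l ^ a)) ⧸ N) :=
    Group.isSolvable_of_surjective hq
  have hperf2 : Group.IsPerfect (SpecialLinearGroup (Fin 2) (ZMod (l ^ a)) ⧸ N) := inferInstance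
  have hsub : Subsingleton (SpecialLinearGroup (Fin 2) (ZMod (l ^ a)) ⧸ N) := by
    by_contra h
    rw [not_subsingleton_iff_nontrivial] at h
    exact Group.IsPerfect.not_isSolvable _ hsol3
  rw [eq_top_iff]
  intro g _
  exact (QuotientGroup.eq_one_iff g).1 (Subsingleton.elim _ _)

end Pool.Agent.P8H53.PF
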