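import Pool.Agent.P8H12.SO.Stm3
import Pool.Agent.P8H53.PF.NrmCore

/-! Package NRM of project PF. -/

namespace Pool.Agent.P8H53.PF

theorem nrm : Pool.Agent.P8H12.ST.S_NRM := nrm_core

end Pool.Agent.P8H53.PF
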